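import Pool.Agent.Run7.h336.AsyG

/-!
# The growth of zeta on the critical line, Jensen polynomials and the derivatives of xi

Let `OnLine κ` say that for all large `n` the zeros of `ξ^(n)` with `|Im s| ≤ e^{κ n}` are on the
critical line, and `JensenUpTo κ` that for all large `n` the Jensen polynomials `J^{d,n}` of `ξ` with
`d ≤ e^{κ n}` are hyperbolic.  If `ζ(1/2 + i t) = O(|t|^(μ + ε))` then `OnLine κ` excludes, up to
finitely many, zeros of zeta with `Re s > 1/2 + 2/κ + 2 μ + ε`, and `JensenUpTo κ` those with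
`Re s > 1/2 + 4/κ + 2 μ + ε`.  Hence, if one of the two holds for all `κ`, the growth exponent on the
critical line and the abscissa of the zeros determine each other; the Lindelof hypothesis is then
equivalent to the asymptotic form of the Riemann hypothesis.  Under the Lindelof hypothesis both
thresholds are exact.
-/

set_option autoImplicit false

namespace Pool.Agent.Results.MP_4e5e8a_nt.XiDerivatives

open Complex Polynomial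

/-- The Riemann xi function `ξ(s) = s (s - 1) π^(-s/2) Γ(s/2) ζ(s) / 2`. -/
noncomputable def xi (s : ℂ) : ℂ := s * (s - 1) / 2 * completedRiemannZeta₀ s + 1 / 2

/-- For some `N` and all `n ≥ N`, all zeros of `ξ^(n)` with `|Im s| ≤ exp (κ n)` have `Re s = 1/2`. -/
def OnLine (κ : ℝ) : Prop := ∃ N : ℕ, ∀ n : ℕ, N ≤ n → ∀ s : ℂ, iteratedDeriv n xi s = 0 →
  |s.im| ≤ Real.exp (κ * n) → s.re = 1 / 2

/-- `Ξ(z) = (4 z ^ 2 - 1) Λ(1/2 + z) = 8 ξ(1/2 + z)`. -/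
noncomputable def Xi (z : ℂ) : ℂ := (4 * z ^ 2 - 1) * completedRiemannZeta₀ (1 / 2 + z) + 4

/-- `γ(k) = k! / (2k)! * Ξ^(2k)(0)`, so that `Ξ(z) = ∑ γ(k) z ^ (2k) / k!`. -/
noncomputable def gamma (k : ℕ) : ℝ :=
  (k.factorial : ℝ) / ((2 * k).factorial : ℝ) * (iteratedDeriv (2 * k) Xi 0).re

/-- The Jensen polynomial `J^{d,n}(X) = ∑_{j ≤ d} binom(d,j) γ(n+j) X^j`. -/
noncomputable def jensen (d n : ℕ) : ℝ[X] :=
  ∑ j ∈ Finset.range (d + 1), C ((d.choose j : ℝ) * gamma (n + j)) * X ^ j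

/-- All complex roots are real (in particular the polynomial is not zero). -/
def Hyperbolic (P : ℝ[X]) : Prop := ∀ z : ℂ, aeval z P = 0 → z.im = 0

/-- All Jensen polynomials of shift `n ≥ N` and degree `d ≤ exp (κ n)` are hyperbolic, for some `N`. -/
def JensenUpTo (κ : ℝ) : Prop := ∃ N : ℕ, ∀ d n : ℕ, N ≤ n → (d : ℝ) ≤ Real.exp (κ * n) →
  Hyperbolic (jensen d n)

/-- `|ζ(1/2 + i t)| ≤ C (1 + |t|) ^ (μ + ε)` for every `ε > 0`. -/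
def Growth (μ : ℝ) : Prop := ∀ ε : ℝ, 0 < ε → ∃ C : ℝ, ∀ t : ℝ,
  ‖riemannZeta (1 / 2 + t * I)‖ ≤ C * (1 + |t|) ^ (μ + ε)

/-- The Lindelof hypothesis. -/
def Lindelof : Prop := ∀ ε : ℝ, 0 < ε → ∃ C : ℝ, ∀ t : ℝ,
  ‖riemannZeta (1 / 2 + t * I)‖ ≤ C * (1 + |t|) ^ ε

/-- For every `ε > 0` only finitely many zeros of zeta have `Re s > θ + ε`. -/
def FinZeros (θ : ℝ) : Prop := ∀ ε : ℝ, 0 < ε → {s : ℂ | θ + ε < s.re ∧ riemannZeta s = 0}.Finite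

theorem result :
    (∀ μ κ : ℝ, 0 ≤ μ → 0 < κ → Growth μ → OnLine κ → FinZeros (1 / 2 + (2 / κ + 2 * μ))) ∧
    (∀ μ κ : ℝ, 0 ≤ μ → 0 < κ → Growth μ → JensenUpTo κ → FinZeros (1 / 2 + (4 / κ + 2 * μ))) ∧
    ((∀ κ : ℝ, OnLine κ) ∨ (∀ κ : ℝ, JensenUpTo κ) →
      ∀ μ : ℝ, 0 ≤ μ → (Growth μ ↔ FinZeros (1 / 2 + 2 * μ))) ∧
    (Lindelof → ∀ θ : ℝ, 1 / 2 ≤ θ → θ ≤ 1 →
      (FinZeros θ ↔ ∀ κ : ℝ, κ * (θ - 1 / 2) < 2 → OnLine κ) ∧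
      (FinZeros θ ↔ ∀ κ : ℝ, κ * (θ - 1 / 2) < 4 → JensenUpTo κ)) ∧
    (FinZeros (1 / 2) ↔ Lindelof ∧ ∀ κ : ℝ, OnLine κ) ∧
    (FinZeros (1 / 2) ↔ Lindelof ∧ ∀ κ : ℝ, JensenUpTo κ) ∧
    (∀ κ : ℝ, 0 < κ → (OnLine κ → FinZeros (5 / 6 + 2 / κ)) ∧
      (JensenUpTo κ → FinZeros (5 / 6 + 4 / κ))) := by
  have hL : Lindelof ↔ Growth 0 := by
    unfold Lindelof Growth
    simp only [zero_add]
  have eXU : ∀ κ : ℝ, OnLine κ → Run7.h336.JS.XiUpTo κ := by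
    rintro κ ⟨N, hN⟩
    refine ⟨N, fun n hn s hs him => ?_⟩
    have h0 : iteratedDeriv n xi (s + 1 / 2) = 0 :=
      (Pool.Agent.H986R2.K4.xiE.2 n (s + 1 / 2)).2 (by simpa using hs)
    have h1 := hN n hn (s + 1 / 2) h0 (by simpa using him)
    simpa using h1
  have eJU : ∀ κ : ℝ, JensenUpTo κ → Run7.h336.JS.HypUpTo κ := by
    rintro κ ⟨N, hN⟩
    exact ⟨N, fun n hn d hd => hN d n hn hd⟩
  have hX : ∀ μ κ : ℝ, 0 ≤ μ → 0 < κ → Growth μ → OnLine κ → FinZeros (1 / 2 + (2 / κ + 2 * μ)) :=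
    fun μ κ h1 h2 h3 h4 => Run7.h336.JS.asyX h1 h2 h3 (eXU κ h4)
  have hJ : ∀ μ κ : ℝ, 0 ≤ μ → 0 < κ → Growth μ → JensenUpTo κ → FinZeros (1 / 2 + (4 / κ + 2 * μ)) :=
    fun μ κ h1 h2 h3 h4 => Run7.h336.JS.asyJ h1 h2 h3 (eJU κ h4)
  -- the forward direction
  have fX : ∀ θ : ℝ, 1 / 2 ≤ θ → θ ≤ 1 → FinZeros θ → ∀ κ : ℝ, κ * (θ - 1 / 2) < 2 → OnLine κ := by
    intro θ h1 h2 h3 κ h4
    have hZ := Run7.h336.JS.zb_of_asy h1 h2 h3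
    obtain ⟨N, hN⟩ := (Pool.Agent.H986R2.K4.xiE.1 κ).2
      (Pool.Agent.H986R2.K4.fwdT (θ - 1 / 2) κ (by linarith) (by linarith) hZ h4)
    exact ⟨N, fun n hn s hs him => (hN n hn s hs him).1⟩
  have fJ : ∀ θ : ℝ, 1 / 2 ≤ θ → θ ≤ 1 → FinZeros θ → ∀ κ : ℝ, κ * (θ - 1 / 2) < 4 →
      JensenUpTo κ := by
    intro θ h1 h2 h3 κ h4
    have hZ := Run7.h336.JS.zb_of_asy h1 h2 h3
    obtain ⟨N, h5, -⟩ := Run7.h336.JS.bothT (θ - 1 / 2) κ (by linarith) (by linarith) hZ h4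
    exact ⟨N, fun d n hn hd => h5 n hn d hd⟩
  -- limits
  have lX : ∀ μ : ℝ, 0 ≤ μ → ∀ θ : ℝ, 1 / 2 + 2 * μ ≤ θ → Growth μ →
      (∀ κ : ℝ, κ * (θ - 1 / 2 - 2 * μ) < 2 → OnLine κ) → FinZeros θ := by
    intro μ hμ θ h1 hG h
    refine Run7.h336.JS.asy_lim fun θ' h2 => ?_
    set δ : ℝ := θ' - 1 / 2 - 2 * μ with hδ
    have hδ0 : 0 < δ := by linarith
    have h3 := hX μ (2 / δ) hμ (by positivity) hG (h (2 / δ) (by
      rw [div_mul_eq_mul_div, div_lt_iff₀ hδ0]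
      linarith))
    have e : 1 / 2 + (2 / (2 / δ) + 2 * μ) = θ' := by
      rw [div_div_cancel₀ (two_ne_zero)]
      rw [hδ]; ring
    rw [e] at h3
    exact h3
  have lJ : ∀ μ : ℝ, 0 ≤ μ → ∀ θ : ℝ, 1 / 2 + 2 * μ ≤ θ → Growth μ →
      (∀ κ : ℝ, κ * (θ - 1 / 2 - 2 * μ) < 4 → JensenUpTo κ) → FinZeros θ := by
    intro μ hμ θ h1 hG h
    refine Run7.h336.JS.asy_lim fun θ' h2 => ?_
    set δ : ℝ := θ' - 1 / 2 - 2 * μ with hδ
    have hδ0 : 0 < δ := by linarith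
    have h3 := hJ μ (4 / δ) hμ (by positivity) hG (h (4 / δ) (by
      rw [div_mul_eq_mul_div, div_lt_iff₀ hδ0]
      linarith))
    have e : 1 / 2 + (4 / (4 / δ) + 2 * μ) = θ' := by
      rw [div_div_cancel₀ (four_ne_zero)]
      rw [hδ]; ring
    rw [e] at h3
    exact h3
  have hhalf : FinZeros (1 / 2) → Lindelof := by
    intro h
    rw [hL]
    refine Run7.h336.JS.grow_of_asy le_rfl ?_
    have e : (1 : ℝ) / 2 + 2 * 0 = 1 / 2 := by norm_num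
    rw [e]
    exact h
  have e0 : ∀ κ : ℝ, κ * ((1 : ℝ) / 2 - 1 / 2) = 0 := fun κ => by rw [sub_self, mul_zero]
  have e1 : ∀ κ θ : ℝ, κ * (θ - 1 / 2 - 2 * 0) = κ * (θ - 1 / 2) := fun κ θ => by ring
  refine ⟨hX, hJ, ?_, ?_, ⟨?_, ?_⟩, ⟨?_, ?_⟩, fun κ hκ => ⟨fun h => ?_, fun h => ?_⟩⟩
  · intro h μ hμ
    refine ⟨fun hG => ?_, fun hF => Run7.h336.JS.grow_of_asy hμ hF⟩
    rcases h with h | h
    · exact lX μ hμ (1 / 2 + 2 * μ) le_rfl hG fun κ _ => h κ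
    · exact lJ μ hμ (1 / 2 + 2 * μ) le_rfl hG fun κ _ => h κ
  · intro hLi θ h1 h2
    refine ⟨⟨fX θ h1 h2, fun h => ?_⟩, ⟨fJ θ h1 h2, fun h => ?_⟩⟩
    · exact lX 0 le_rfl θ (by linarith) (hL.1 hLi) fun κ hκ => h κ (by rwa [e1] at hκ)
    · exact lJ 0 le_rfl θ (by linarith) (hL.1 hLi) fun κ hκ => h κ (by rwa [e1] at hκ)
  · intro h
    exact ⟨hhalf h, fun κ => fX (1 / 2) le_rfl (by norm_num) h κ (by rw [e0]; norm_num)⟩
  · rintro ⟨h1, h2⟩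
    exact lX 0 le_rfl (1 / 2) (by norm_num) (hL.1 h1) fun κ _ => h2 κ
  · intro h
    exact ⟨hhalf h, fun κ => fJ (1 / 2) le_rfl (by norm_num) h κ (by rw [e0]; norm_num)⟩
  · rintro ⟨h1, h2⟩
    exact lJ 0 le_rfl (1 / 2) (by norm_num) (hL.1 h1) fun κ _ => h2 κ
  · have h1 := hX (1 / 6) κ (by norm_num) hκ Run7.h336.JS.grow_weyl h
    have e : (1 : ℝ) / 2 + (2 / κ + 2 * (1 / 6)) = 5 / 6 + 2 / κ := by ring
    rwa [e] at h1
  · have h1 := hJ (1 / 6) κ (by norm_num) hκ Run7.h336.JS.grow_weyl h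
    have e : (1 : ℝ) / 2 + (4 / κ + 2 * (1 / 6)) = 5 / 6 + 4 / κ := by ring
    rwa [e] at h1

end Pool.Agent.Results.MP_4e5e8a_nt.XiDerivatives
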